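import Pool.Agent.FD.Main
import Pool.Agent.FD.Least

/-!
# For every `m ≥ 4` no explicit expression in `n` gives the fractional domination number of
`P_m × P_n`

`gammaF G` is the minimum (`Pool.Agent.FD.isLeast_gammaF`) of the total weight of a fractional
dominating function; `ExplicitExpr F` says that on every residue class modulo some `q > 0` the
function `F` is a rational function of `n` with rational coefficients, finitely many `n` excepted.

Idea: with `N = m + 1` the array whose closed neighbourhood sums are all one is a sum of modes
`sin (π r i / N)` (`i` odd) in one direction times a hyperbolic or trigonometric function in the
other one.  Along suitable `n` in any residue class it is positive, hence optimal, and the limit of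
`γ_f(P_m × P_n) - α n` is irrational by a Galois argument.  For `m = 7, 8` it is not positive; there
the phases of the modes are independent and explicit primal and dual solutions show that
`γ_f(P_m × P_n) - α n` does not converge on any residue class `-1` modulo `q`.
-/

namespace Pool.Agent.Results.MP_7f4d60_co.NoExplicitExpression

open Pool.Agent.FD

/-- For every `m ≥ 4` the fractional domination number of `P_m × P_n` is not given by an explicit
expression in `n`. -/
theorem result : ∀ m : ℕ, 4 ≤ m → ¬ ExplicitExpr (fun n => gammaF (grid m n)) :=
  fun m hm => main m hm

end Pool.Agent.Results.MP_7f4d60_co.NoExplicitExpression
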